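import Pool.Agent.H55.PM.Targets

/-! Slow functions (module SL of the board pm_modules, MP_9198c9_nt). -/

set_option autoImplicit false

namespace Pool.Agent.H51.PM

/-- thresholds at distance at least two and beyond given bounds -/
def thr (M : ℕ → ℕ) : ℕ → ℕ
  | 0 => 0
  | k + 1 => max (thr M k + 2) (M (k + 1))

lemma thr_add_two (M : ℕ → ℕ) (k : ℕ) : thr M k + 2 ≤ thr M (k + 1) := le_max_left _ _

lemma le_thr (M : ℕ → ℕ) (k : ℕ) : M (k + 1) ≤ thr M (k + 1) := le_max_right _ _

lemma two_mul_le_thr (M : ℕ → ℕ) : ∀ k : ℕ, 2 * k ≤ thr M k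
  | 0 => by simp
  | k + 1 => by
    have h := two_mul_le_thr M k
    have h2 := thr_add_two M k
    omega

/-- **SL.** Slow functions. -/
theorem t_SL : Pool.Agent.H55.PM.T_SL := by
  intro κ hκ
  have hM : ∀ k : ℕ, ∃ N : ℕ, ∀ i ≥ N, (k : ℝ) ≤ κ i := fun k =>
    Filter.tendsto_atTop_atTop.mp hκ k
  choose M hM using hM
  have hle : ∀ (k n : ℕ), k ≤ n → thr M k ≤ n → k ≤ Nat.findGreatest (fun k => thr M k ≤ n) n :=
    fun k n hk h => Nat.le_findGreatest hk h
  have hsp : ∀ n : ℕ, thr M (Nat.findGreatest (fun k => thr M k ≤ n) n) ≤ n := fun n =>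
    Nat.findGreatest_spec (P := fun k => thr M k ≤ n) (m := 0) (Nat.zero_le _) (Nat.zero_le _)
  have hmono : Monotone fun n : ℕ => Nat.findGreatest (fun k => thr M k ≤ n) n := by
    intro a b hab
    have h1 := hsp a
    have h2 : Nat.findGreatest (fun k => thr M k ≤ a) a ≤ a := Nat.findGreatest_le _
    exact hle _ _ (h2.trans hab) (h1.trans hab)
  refine ⟨fun n => Nat.findGreatest (fun k => thr M k ≤ n) n, hmono, ?_, ?_, ?_, M 0, ?_⟩
  · refine Filter.tendsto_atTop_atTop_of_monotone hmono fun k => ⟨thr M k, ?_⟩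
    have h := two_mul_le_thr M k
    exact hle k _ (by omega) le_rfl
  · intro i
    have h1 := hsp (i + 1)
    show Nat.findGreatest (fun k => thr M k ≤ i + 1) (i + 1) ≤
      Nat.findGreatest (fun k => thr M k ≤ i) i + 1
    generalize Nat.findGreatest (fun k => thr M k ≤ i + 1) (i + 1) = j at h1
    rcases j with _ | j
    · omega
    · have h2 := thr_add_two M j
      have h3 := two_mul_le_thr M j
      have h4 := hle j i (by omega) (by omega)
      omega
  · intro i
    exact (two_mul_le_thr M _).trans (hsp i)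
  · intro i hi
    have h1 := hsp i
    show ((Nat.findGreatest (fun k => thr M k ≤ i) i : ℕ) : ℝ) ≤ κ i
    generalize Nat.findGreatest (fun k => thr M k ≤ i) i = j at h1
    rcases j with _ | j
    · exact hM 0 i hi
    · exact hM (j + 1) i ((le_thr M j).trans h1)

end Pool.Agent.H51.PM
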